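import Pool.Agent.Q148.Game

set_option autoImplicit false

/-!
The minimum number of parts in a partition of the grid `[n]²` into proper boxes such that every
axis-parallel line meets at least `k` parts. A box is a product `A × B` of nonempty (not necessarily
consecutive) sets of coordinates.
-/

open Finset

namespace Pool.Agent.Results.MP_21d1af_co.PiercingNumber

/-- The grid `[n]²` has a partition into `m` proper boxes `A e × B e` with the `k`-piercing
property: the sides are nonempty and different from `[n]`, every cell lies in exactly one box, and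
every row `[n] × {j}` and every column `{i} × [n]` meets at least `k` of the boxes. -/
def HasPiercingPartition (n k m : ℕ) : Prop :=
  ∃ A B : Fin m → Finset (Fin n),
    (∀ e, (A e).Nonempty ∧ (B e).Nonempty) ∧
    (∀ e, A e ≠ Finset.univ ∧ B e ≠ Finset.univ) ∧
    (∀ z : Fin n × Fin n, ∃! e, z ∈ A e ×ˢ B e) ∧
    (∀ i, k ≤ (Finset.univ.filter fun e => ∃ j, (i, j) ∈ A e ×ˢ B e).card) ∧
    (∀ j, k ≤ (Finset.univ.filter fun e => ∃ i, (i, j) ∈ A e ×ˢ B e).card)

/-- `pBox n k` is the least `m` for which such a partition of `[n]²` exists. -/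
noncomputable def pBox (n k : ℕ) : ℕ := sInf {m | HasPiercingPartition n k m}

theorem lower {n k m : ℕ} (hn : 1 ≤ n) (h : HasPiercingPartition n k m) : 4 * (k - 1) ≤ m := by
  obtain ⟨A, B, hne, hpr, hpart, hk, hl⟩ := h
  have : NeZero n := ⟨by omega⟩
  have h1 := Q148.Game.bound_four A B (fun e => (hne e).1) (fun e => (hne e).2)
    (fun e => by
      by_contra hc
      push Not at hc
      exact (hpr e).1 (Finset.eq_univ_iff_forall.2 hc))
    (fun e => by
      by_contra hc
      push Not at hc
      exact (hpr e).2 (Finset.eq_univ_iff_forall.2 hc))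
    (fun i j => by simpa using hpart (i, j)) k
    (fun i => (hk i).trans (Finset.card_le_card fun e he => by
      simp only [Finset.mem_filter, Finset.mem_univ, true_and, Finset.mem_product] at he ⊢
      obtain ⟨j, hj⟩ := he
      exact hj.1))
    (fun j => (hl j).trans (Finset.card_le_card fun e he => by
      simp only [Finset.mem_filter, Finset.mem_univ, true_and, Finset.mem_product] at he ⊢
      obtain ⟨i, hi⟩ := he
      exact hi.2))
  simpa using h1

/-- The half of the grid and the strip inside this half of a coordinate. -/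
def strip (n K : ℕ) (hK : 0 < K) (i : Fin n) : Bool × Fin K :=
  if h : i.1 < K then (false, ⟨i.1, h⟩) else (true, ⟨min (i.1 - K) (K - 1), by omega⟩)

theorem strip_surj {n K : ℕ} (hK : 0 < K) (hn : 2 * K ≤ n) (x : Bool × Fin K) :
    ∃ i : Fin n, strip n K hK i = x := by
  obtain ⟨a, c⟩ := x
  have hc := c.2
  cases a
  · refine ⟨⟨c.1, by omega⟩, ?_⟩
    simp [strip]
  · refine ⟨⟨K + c.1, by omega⟩, ?_⟩
    simp only [strip, add_lt_iff_neg_left, not_lt_zero, ↓reduceDIte, add_tsub_cancel_left,
      Prod.mk.injEq, true_and]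
    ext
    simp only
    omega

/-- First side of the box with the label `(a, b, c)`. -/
def sideA (n K : ℕ) (hK : 0 < K) (x : Bool × Bool × Fin K) : Finset (Fin n) :=
  Finset.univ.filter fun i => (strip n K hK i).1 = x.1 ∧
    (x.1 = x.2.1 ∨ (strip n K hK i).2 = x.2.2)

/-- Second side of the box with the label `(a, b, c)`. -/
def sideB (n K : ℕ) (hK : 0 < K) (x : Bool × Bool × Fin K) : Finset (Fin n) :=
  Finset.univ.filter fun j => (strip n K hK j).1 = x.2.1 ∧
    (x.1 ≠ x.2.1 ∨ (strip n K hK j).2 = x.2.2)

theorem cell {n K : ℕ} (hK : 0 < K) (i j : Fin n) :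
    ∃! x, i ∈ sideA n K hK x ∧ j ∈ sideB n K hK x := by
  refine ⟨((strip n K hK i).1, (strip n K hK j).1,
    if (strip n K hK i).1 = (strip n K hK j).1 then (strip n K hK j).2 else (strip n K hK i).2),
    ?_, ?_⟩
  · simp only [sideA, sideB, Finset.mem_filter, Finset.mem_univ, true_and]
    by_cases h : (strip n K hK i).1 = (strip n K hK j).1
    · simp [h]
    · simp [h]
  · rintro ⟨a, b, c⟩ ⟨h1, h2⟩
    simp only [sideA, sideB, Finset.mem_filter, Finset.mem_univ, true_and] at h1 h2
    obtain ⟨h1a, h1b⟩ := h1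
    obtain ⟨h2a, h2b⟩ := h2
    subst h1a h2a
    by_cases h : (strip n K hK i).1 = (strip n K hK j).1
    · simp only [h, ne_eq, not_true_eq_false, false_or] at h2b
      simp [h, h2b]
    · simp only [h, false_or] at h1b
      simp [h, h1b]

theorem card_ge {n K : ℕ} (hK : 0 < K) (S : Finset (Bool × Bool × Fin K))
    (f : Option (Fin K) → Bool × Bool × Fin K) (hf : Function.Injective f) (hS : ∀ o, f o ∈ S) :
    K + 1 ≤ S.card := by
  calc K + 1 = (Finset.univ : Finset (Option (Fin K))).card := by simp
    _ = ((Finset.univ : Finset (Option (Fin K))).image f).card :=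
        (Finset.card_image_of_injective _ hf).symm
    _ ≤ S.card := Finset.card_le_card fun x hx => by
        obtain ⟨o, _, rfl⟩ := Finset.mem_image.1 hx
        exact hS o

theorem upper {n k : ℕ} (hk : 2 ≤ k) (hn : 2 * (k - 1) ≤ n) :
    HasPiercingPartition n k (4 * (k - 1)) := by
  obtain ⟨K, rfl⟩ : ∃ K, k = K + 1 := ⟨k - 1, by omega⟩
  rw [Nat.add_sub_cancel] at hn ⊢
  have hK : 0 < K := by omega
  have hcard : Fintype.card (Bool × Bool × Fin K) = 4 * K := by
    simp only [Fintype.card_prod, Fintype.card_bool, Fintype.card_fin]; ring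
  let φ : Fin (4 * K) ≃ Bool × Bool × Fin K := (Fintype.equivFinOfCardEq hcard).symm
  refine ⟨fun e => sideA n K hK (φ e), fun e => sideB n K hK (φ e), ?_, ?_, ?_, ?_, ?_⟩
  · intro e
    obtain ⟨i, hi⟩ := strip_surj hK hn ((φ e).1, (φ e).2.2)
    obtain ⟨j, hj⟩ := strip_surj hK hn ((φ e).2.1, (φ e).2.2)
    exact ⟨⟨i, by simp [sideA, hi]⟩, ⟨j, by simp [sideB, hj]⟩⟩
  · intro e
    obtain ⟨i, hi⟩ := strip_surj hK hn (!(φ e).1, (φ e).2.2)
    obtain ⟨j, hj⟩ := strip_surj hK hn (!(φ e).2.1, (φ e).2.2)
    constructor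
    · intro h
      have := h ▸ Finset.mem_univ i
      simp [sideA, hi] at this
    · intro h
      have := h ▸ Finset.mem_univ j
      simp [sideB, hj] at this
  · rintro ⟨i, j⟩
    obtain ⟨x, hx, hu⟩ := cell hK i j
    refine ⟨φ.symm x, by simpa using hx, ?_⟩
    intro e he
    rw [Equiv.eq_symm_apply]
    exact hu (φ e) (by simpa using he)
  · intro i
    have h1 : K + 1 ≤ (Finset.univ.filter fun x => i ∈ sideA n K hK x).card := by
      refine card_ge (n := n) hK _ (fun o => o.elim
        ((strip n K hK i).1, !(strip n K hK i).1, (strip n K hK i).2)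
        (fun c => ((strip n K hK i).1, (strip n K hK i).1, c))) ?_ ?_
      · rintro (_ | c) (_ | d) h
        · rfl
        · simp at h
        · simp at h
        · simpa using h
      · rintro (_ | c) <;> simp [sideA]
    refine h1.trans ?_
    rw [← Finset.card_map φ.symm.toEmbedding]
    refine Finset.card_le_card fun e he => ?_
    simp only [Finset.mem_map, Finset.mem_filter, Finset.mem_univ, true_and,
      Equiv.coe_toEmbedding] at he
    obtain ⟨x, hx, rfl⟩ := he
    obtain ⟨j, hj⟩ := strip_surj hK hn (x.2.1, x.2.2)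
    simp only [Finset.mem_filter, Finset.mem_univ, true_and, Finset.mem_product,
      Equiv.apply_symm_apply]
    exact ⟨j, hx, by simp [sideB, hj]⟩
  · intro j
    have h1 : K + 1 ≤ (Finset.univ.filter fun x => j ∈ sideB n K hK x).card := by
      refine card_ge (n := n) hK _ (fun o => o.elim
        ((strip n K hK j).1, (strip n K hK j).1, (strip n K hK j).2)
        (fun c => (!(strip n K hK j).1, (strip n K hK j).1, c))) ?_ ?_
      · rintro (_ | c) (_ | d) h
        · rfl
        · simp at h
        · simp at h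
        · simpa using h
      · rintro (_ | c) <;> simp [sideB]
    refine h1.trans ?_
    rw [← Finset.card_map φ.symm.toEmbedding]
    refine Finset.card_le_card fun e he => ?_
    simp only [Finset.mem_map, Finset.mem_filter, Finset.mem_univ, true_and,
      Equiv.coe_toEmbedding] at he
    obtain ⟨x, hx, rfl⟩ := he
    obtain ⟨i, hi⟩ := strip_surj hK hn (x.1, x.2.2)
    simp only [Finset.mem_filter, Finset.mem_univ, true_and, Finset.mem_product,
      Equiv.apply_symm_apply]
    exact ⟨i, by simp [sideA, hi], hx⟩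

/-- For every `k ≥ 2`: every partition of `[n]²` (`n ≥ 1`) into proper boxes with the `k`-piercing
property has at least `4 (k - 1)` parts; for `n ≥ 2 (k - 1)` the least number of parts is exactly
`4 (k - 1)`; hence the limit of `pBox n k` as `n → ∞` is `4 (k - 1)`. -/
theorem result (k : ℕ) (hk : 2 ≤ k) :
    (∀ n m : ℕ, 1 ≤ n → HasPiercingPartition n k m → 4 * (k - 1) ≤ m) ∧
    (∀ n : ℕ, 2 * (k - 1) ≤ n → IsLeast {m | HasPiercingPartition n k m} (4 * (k - 1))) ∧
    Filter.Tendsto (fun n => pBox n k) Filter.atTop (nhds (4 * (k - 1))) := by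
  have h2 : ∀ n : ℕ, 2 * (k - 1) ≤ n →
      IsLeast {m | HasPiercingPartition n k m} (4 * (k - 1)) := fun n hn =>
    ⟨upper hk hn, fun m hm => lower (by omega) hm⟩
  refine ⟨fun n m hn h => lower hn h, h2, ?_⟩
  refine tendsto_const_nhds.congr' ?_
  filter_upwards [Filter.eventually_ge_atTop (2 * (k - 1))] with n hn
  exact (h2 n hn).csInf_eq.symm

end Pool.Agent.Results.MP_21d1af_co.PiercingNumber
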